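import Pool.Agent.Helper71_TDL.Six

/-!
# TDL, the case kappa = 2: the end
-/

set_option autoImplicit false

namespace Pool.Agent.TDL.H71

open scoped Classical

open Pool.Agent.TDL

variable {T P : Type} {X : Pos T P} {Bad : Finset T → Prop}

/-- An attached player has only one token. -/
lemma att_tok (hK : K2N X Bad) {Q C : Finset T} (hQ : Nc X Bad Q C) {x : P} (hx : Att X C x)
    {c : T} (hc : c ∈ X.N x) (hcC : c ∉ C) {t : T} (ht : t ∈ X.N x) (htC : t ∉ C) : t = c := by
  obtain ⟨u, v, hu, hv, -, -, hN⟩ := att_split hK hQ hx hc hcC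
  rw [hN] at ht
  simp only [Finset.mem_insert, Finset.mem_singleton] at ht
  rcases ht with rfl | rfl | rfl
  · exact absurd hu htC
  · exact absurd hv htC
  · rfl

/-- Targets with two players. -/
lemma deg2 {u : T} (h2 : deg X u = 2) {x g : P} (hx : x ∈ X.A) (hg : g ∈ X.A) (hux : u ∈ X.N x)
    (hug : u ∈ X.N g) (hne : x ≠ g) {p : P} (hp : p ∈ X.A) (hup : u ∈ X.N p) :
    p = x ∨ p = g := by
  have h1 : ({x, g} : Finset P) = X.A.filter fun p => u ∈ X.N p := by
    apply Finset.eq_of_subset_of_card_le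
    · intro q hq
      simp only [Finset.mem_insert, Finset.mem_singleton] at hq
      rcases hq with rfl | rfl
      · exact Finset.mem_filter.2 ⟨hx, hux⟩
      · exact Finset.mem_filter.2 ⟨hg, hug⟩
    · unfold deg at h2
      rw [h2, Finset.card_pair hne]
  have h3 : p ∈ X.A.filter fun p => u ∈ X.N p := Finset.mem_filter.2 ⟨hp, hup⟩
  rw [← h1] at h3
  simpa using h3

theorem fin : FinStmt := by
  intro T P X Bad hK h13 h12 Q C y1 y2 a b hb x B D y c s hx hB hca hc r2 r3 g h m u v i0 i1 tg th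
    hS hr2 hr3 hr hr2a hr3a hdu hdi
  have hN : K2N X Bad := hK.toK2N
  have hCl := Nc.clu hN hb.nc
  have huv := hS.uv
  have hii := hS.ii
  have huC := hS.uC
  have hvC := hS.vC
  have hi0C := hS.i0C
  have hi1C := hS.i1C
  have hi0D := hS.i0D
  have hi1D := hS.i1D
  have huD := hS.uD
  have hvD := hS.vD
  have htgC := hS.tgC
  have hthC := hS.thC
  have hg := hS.ag
  have hh := hS.ah
  have hm := hS.am
  have hui0 : u ≠ i0 := fun e => huD (e ▸ hi0D)
  have hui1 : u ≠ i1 := fun e => huD (e ▸ hi1D)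
  have hvi0 : v ≠ i0 := fun e => hvD (e ▸ hi0D)
  have hvi1 : v ≠ i1 := fun e => hvD (e ▸ hi1D)
  have hxC : X.N x ∩ C = {u, v} := hS.nx
  have hgC : X.N g ∩ C = {u, i0} := inter3 hS.ng huC hi0C htgC
  have hhC : X.N h ∩ C = {v, i1} := inter3 hS.nh hvC hi1C hthC
  have hmC : X.N m ∩ C = {i0, i1} := by
    rw [hS.nm]
    apply Finset.inter_eq_left.2
    intro r hr
    simp only [Finset.mem_insert, Finset.mem_singleton] at hr
    rcases hr with rfl | rfl <;> assumption
  have mem2 : ∀ {p : P} {p1 p2 t : T}, X.N p ∩ C = {p1, p2} → t ∈ X.N p → t ∈ C →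
      t = p1 ∨ t = p2 := by
    intro p p1 p2 t he h1 h2
    have : t ∈ X.N p ∩ C := Finset.mem_inter.2 ⟨h1, h2⟩
    rw [he] at this
    simpa using this
  have hux : u ∈ X.N x := by
    have : u ∈ X.N x ∩ C := by rw [hxC]; simp
    exact (Finset.mem_inter.1 this).1
  have hvx : v ∈ X.N x := by
    have : v ∈ X.N x ∩ C := by rw [hxC]; simp
    exact (Finset.mem_inter.1 this).1
  have hug : u ∈ X.N g := by rw [hS.ng]; simp
  have hi0g : i0 ∈ X.N g := by rw [hS.ng]; simp
  have htgg : tg ∈ X.N g := by rw [hS.ng]; simp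
  have hvh : v ∈ X.N h := by rw [hS.nh]; simp
  have hi1h : i1 ∈ X.N h := by rw [hS.nh]; simp
  have hthh : th ∈ X.N h := by rw [hS.nh]; simp
  have hi0m : i0 ∈ X.N m := by rw [hS.nm]; simp
  have hi1m : i1 ∈ X.N m := by rw [hS.nm]; simp
  have hvg : v ∉ X.N g := by
    intro h'
    rcases mem2 hgC h' hvC with e | e
    · exact huv e.symm
    · exact hvi0 e
  have hvm : v ∉ X.N m := by
    intro h'
    rcases mem2 hmC h' hvC with e | e
    · exact hvi0 e
    · exact hvi1 e
  have hxg : x ≠ g := fun e => hvg (e ▸ hvx)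
  have hhm : h ≠ m := fun e => hvm (e ▸ hvh)
  have atu : ∀ {p : P}, p ∈ X.A → u ∈ X.N p → p = x ∨ p = g := fun hp hup =>
    deg2 hdu hx.1 hg.1 hux hug hxg hp hup
  have ati : ∀ {p : P}, p ∈ X.A → i1 ∈ X.N p → p = h ∨ p = m := fun hp hup =>
    deg2 hdi hh.1 hm hi1h hi1m hhm hp hup
  have hcN : c ∈ X.N x := hB.ha
  have hcQ : c ∈ Q := Nc.cl hb.nc hx.1 hux huC hcN hc
  have hthQ : th ∈ Q := Nc.cl hb.nc hh.1 hvh hvC hthh hthC
  have hxB : X.N x ⊆ B := by
    rw [hB.eq]
    exact Finset.subset_insert _ _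
  -- the base of `g`
  obtain ⟨Bg, Dg, hBg0, hgB⟩ := hN.wit1 Q C g hb.nc hg
  obtain ⟨m', c', s', hBg⟩ := hK.base Bg Dg g hBg0 (mem_J.2 ⟨hg.1, hgB⟩) (hN.att3 Q C g hb.nc hg)
  obtain ⟨hc', hs'⟩ := hS.bg _ _ _ _ _ hBg
  have hBeq : Bg = insert i1 (X.N g) := by rw [hBg.eq, hs']
  have hi1Bg : i1 ∈ Bg := by rw [hBeq]; simp
  have hi1Dg : i1 ∉ Dg := Nc.nm hBg.nc hi1Bg
  have huDg : u ∉ Dg := Nc.nm hBg.nc (hgB hug)
  have hi0Dg : i0 ∉ Dg := Nc.nm hBg.nc (hgB hi0g)
  have hBgC : ∀ t ∈ Bg, t ∈ C → t = u ∨ t = i0 ∨ t = i1 := by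
    intro t ht htC
    rw [hBeq, Finset.mem_insert] at ht
    rcases ht with e | e
    · exact Or.inr (Or.inr e)
    · rcases mem2 hgC e htC with e | e
      · exact Or.inl e
      · exact Or.inr (Or.inl e)
  have hcDg : c ∈ Dg := (hb.tok g Bg Dg hg hBg.nc hgB tg htgg htgC c hcQ).2
    (by rw [hca, hS.kg]; exact hr2a.symm)
  have hvDg : v ∈ Dg := by
    obtain ⟨t, ht1, ht2, ht3⟩ := (Nc.clu hN hBg.nc).other hx.1 hcN hcDg
    by_cases htC : t ∈ C
    · rcases mem2 hxC ht1 htC with e | e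
      · exact absurd (e ▸ ht2) huDg
      · exact e ▸ ht2
    · exact absurd (att_tok hN hb.nc hx hcN hc ht1 htC) ht3
  -- (a)
  have hA : ∀ d ∈ C, d ∈ Dg → d = v := by
    by_contra hcon
    push Not at hcon
    obtain ⟨d0, hd0C, hd0D, hd0v⟩ := hcon
    obtain ⟨p, hp, hp1, hp2⟩ := hCl.conn v ((C ∩ Dg).erase v)
      (Finset.erase_subset_erase v Finset.inter_subset_left)
      ⟨d0, Finset.mem_erase.2 ⟨hd0v, Finset.mem_inter.2 ⟨hd0C, hd0D⟩⟩⟩
      (by
        intro e
        have : u ∈ (C ∩ Dg).erase v := by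
          rw [e]
          exact Finset.mem_erase.2 ⟨huv, huC⟩
        exact huDg (Finset.mem_inter.1 (Finset.mem_erase.1 this).2).2)
    obtain ⟨d, hd1, hd2⟩ := (meets_iff _ _).1 hp1
    obtain ⟨hdv, hd3⟩ := Finset.mem_erase.1 hd2
    obtain ⟨hdC, hdDg⟩ := Finset.mem_inter.1 hd3
    obtain ⟨d', hd1', hd2'⟩ := (meets_iff _ _).1 hp2
    obtain ⟨hd3', hd4'⟩ := Finset.mem_sdiff.1 hd2'
    obtain ⟨hdv', hdC'⟩ := Finset.mem_erase.1 hd3'
    have hdDg' : d' ∉ Dg := fun h' =>
      hd4' (Finset.mem_erase.2 ⟨hdv', Finset.mem_inter.2 ⟨hdC', h'⟩⟩)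
    obtain ⟨hdB', t, ht1, ht2, ht3, ht4, hat, hNp⟩ :=
      cut_ii hN hb.nc hBg.nc hp hd1 hdC hdDg hd1' hdC' hdDg'
    have hdu' : d ≠ u := fun e => huDg (e ▸ hdDg)
    have hdi0' : d ≠ i0 := fun e => hi0Dg (e ▸ hdDg)
    have hdi1' : d ≠ i1 := fun e => hi1Dg (e ▸ hdDg)
    rcases hBgC d' hdB' hdC' with e | e | e
    · subst e
      rcases atu hp hd1' with e | e
      · subst e
        rcases mem2 hxC hd1 hdC with e | e
        · exact hdu' e
        · exact hdv e
      · subst e
        rcases mem2 hgC hd1 hdC with e | e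
        · exact hdu' e
        · exact hdi0' e
    · subst e
      have hdD : d ∈ D := by
        rcases h12 Q C y1 y2 a b hb x B D y c s hx hB hc d hdC with h' | h'
        · exact h'
        · rcases mem2 hxC h' hdC with e | e
          · exact absurd e hdu'
          · exact absurd e hdv
      have hpD := (Nc.clu hN hB.nc).pair hp hd1 hdD hd1' hi0D hdi0'
      have htD : t ∉ D := by
        intro htD
        have : t ∈ X.N p ∩ D := Finset.mem_inter.2 ⟨ht1, htD⟩
        rw [hpD, Finset.mem_insert, Finset.mem_singleton] at this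
        rcases this with rfl | rfl
        · exact ht3 hdC
        · exact ht3 hdC'
      have hkt : kk a b t = a := by
        by_contra hne
        exact htD ((hb.tok x B D hx hB.nc hxB c hcN hc t ht4).2 (by rw [hca]; exact hne))
      obtain ⟨Br, Dr, hBr0, hpB⟩ := hN.wit1 Q C p hb.nc hat
      obtain ⟨yr, cr, sr, hBr⟩ := hK.base Br Dr p hBr0 (mem_J.2 ⟨hp, hpB⟩)
        (hN.att3 Q C p hb.nc hat)
      have hcr : cr ∉ C := h13 Q C y1 y2 a b hb p Br Dr yr cr sr hat hBr ⟨t, ht1, ht3, hkt⟩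
      have hsr : sr ∉ C := by
        intro hsC
        have hsN : sr ∈ X.N yr := by rw [hBr.n2]; simp
        obtain ⟨w, hw1, hw2, hw3⟩ := hCl.other hBr.A2 hsN hsC
        rw [hBr.n2] at hw1
        simp only [Finset.mem_insert, Finset.mem_singleton] at hw1
        rcases hw1 with rfl | rfl
        · exact hcr hw2
        · exact hw3 rfl
      have hthDr : th ∈ Dr := (hb.tok p Br Dr hat hBr.nc hpB t ht1 ht3 th hthQ).2
        (by rw [hkt, hS.kh]; exact hr3a)
      obtain ⟨w, i, hwN, hwB, hwC, -, -, -, -⟩ := cut_i hN hb.nc hBr.nc hh hthh hthC hthDr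
      have hwh : w ∈ X.N h := by rw [hwN]; simp
      have hwd : w = d' ∨ w = d := by
        rw [hBr.eq, Finset.mem_insert] at hwB
        rcases hwB with e | e
        · exact absurd (e ▸ hwC) hsr
        · rw [hNp] at e
          simp only [Finset.mem_insert, Finset.mem_singleton] at e
          rcases e with e | e | e
          · exact Or.inl e
          · exact Or.inr e
          · exact absurd (e ▸ hwC) ht3
      rcases mem2 hhC hwh hwC with e | e
      · rcases hwd with e' | e'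
        · exact hvi0 (e.symm.trans e')
        · exact hdv (e'.symm.trans e)
      · rcases hwd with e' | e'
        · exact hii (e'.symm.trans e)
        · exact hdi1' (e'.symm.trans e)
    · subst e
      rcases ati hp hd1' with e | e
      · subst e
        rcases mem2 hhC hd1 hdC with e | e
        · exact hdv e
        · exact hdi1' e
      · subst e
        rcases mem2 hmC hd1 hdC with e | e
        · exact hdi0' e
        · exact hdi1' e
  -- (b)
  have atv : ∀ {p : P}, p ∈ X.A → v ∈ X.N p → p = x ∨ p = h := by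
    intro p hp hvp
    obtain ⟨e, he1, he2, he3⟩ := hCl.other hp hvp hvC
    have heD : e ∉ Dg := fun h' => he3 (hA e he2 h')
    obtain ⟨heB, -⟩ := cut_ii hN hb.nc hBg.nc hp hvp hvC hvDg he1 he2 heD
    rcases hBgC e heB he2 with h' | h' | h'
    · subst h'
      rcases atu hp he1 with h' | h'
      · exact Or.inl h'
      · subst h'
        exact absurd hvp hvg
    · exfalso
      subst h'
      exact no_tri hCl hvi0 hvi1 hii hp hh.1 hm (hCl.pair hp hvp hvC he1 he2 he3.symm) hhC hmC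
    · subst h'
      rcases ati hp he1 with h' | h'
      · exact Or.inr h'
      · subst h'
        exact absurd hvp hvm
  -- (c)
  have hall : ∀ {p : P}, p ∈ X.A → (u ∈ X.N p ∨ v ∈ X.N p ∨ i1 ∈ X.N p) →
      p = x ∨ p = g ∨ p = h ∨ p = m := by
    intro p hp h'
    rcases h' with h' | h' | h'
    · rcases atu hp h' with e | e
      · exact Or.inl e
      · exact Or.inr (Or.inl e)
    · rcases atv hp h' with e | e
      · exact Or.inl e
      · exact Or.inr (Or.inr (Or.inl e))
    · rcases ati hp h' with e | e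
      · exact Or.inr (Or.inr (Or.inl e))
      · exact Or.inr (Or.inr (Or.inr e))
  have hnin : ∀ {p : P}, (p = x ∨ p = g ∨ p = h ∨ p = m) → ∀ t ∈ X.N p, t ∈ C →
      t = u ∨ t = v ∨ t = i0 ∨ t = i1 := by
    intro p hp t ht htC
    rcases hp with e | e | e | e
    · subst e
      rcases mem2 hxC ht htC with e | e
      · exact Or.inl e
      · exact Or.inr (Or.inl e)
    · subst e
      rcases mem2 hgC ht htC with e | e
      · exact Or.inl e
      · exact Or.inr (Or.inr (Or.inl e))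
    · subst e
      rcases mem2 hhC ht htC with e | e
      · exact Or.inr (Or.inl e)
      · exact Or.inr (Or.inr (Or.inr e))
    · subst e
      rcases mem2 hmC ht htC with e | e
      · exact Or.inr (Or.inr (Or.inl e))
      · exact Or.inr (Or.inr (Or.inr e))
  have hC4 : ({u, v, i1} : Finset T) = C.erase i0 := by
    by_contra hne
    obtain ⟨p, hp, hp1, hp2⟩ := hCl.conn i0 {u, v, i1}
      (by
        intro t ht
        simp only [Finset.mem_insert, Finset.mem_singleton] at ht
        rcases ht with rfl | rfl | rfl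
        · exact Finset.mem_erase.2 ⟨hui0, huC⟩
        · exact Finset.mem_erase.2 ⟨hvi0, hvC⟩
        · exact Finset.mem_erase.2 ⟨hii.symm, hi1C⟩)
      ⟨u, by simp⟩ hne
    obtain ⟨d, hd1, hd2⟩ := (meets_iff _ _).1 hp1
    obtain ⟨d', hd1', hd2'⟩ := (meets_iff _ _).1 hp2
    obtain ⟨hd3', hd4'⟩ := Finset.mem_sdiff.1 hd2'
    obtain ⟨hd5', hd6'⟩ := Finset.mem_erase.1 hd3'
    simp only [Finset.mem_insert, Finset.mem_singleton, not_or] at hd2 hd4'
    have h1 : p = x ∨ p = g ∨ p = h ∨ p = m := by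
      apply hall hp
      rcases hd2 with e | e | e
      · exact Or.inl (e ▸ hd1)
      · exact Or.inr (Or.inl (e ▸ hd1))
      · exact Or.inr (Or.inr (e ▸ hd1))
    rcases hnin h1 d' hd1' hd6' with e | e | e | e
    · exact hd4'.1 e
    · exact hd4'.2.1 e
    · exact hd5' e
    · exact hd4'.2.2 e
  have hcard : C.card = 4 := by
    have h1 := Finset.card_erase_of_mem hi0C
    rw [← hC4, Finset.card_eq_three.2 ⟨u, v, i1, huv, hui1, hvi1, rfl⟩] at h1
    omega
  -- (d)
  have hE : E X C ⊆ {x, g, h, m} := by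
    intro p hp
    obtain ⟨hp1, hp2⟩ := mem_E.1 hp
    have h2 := hCl.two p hp1 hp2
    obtain ⟨t, ht, hne⟩ := Finset.exists_mem_ne (by omega : 1 < (X.N p ∩ C).card) i0
    obtain ⟨ht1, ht2⟩ := Finset.mem_inter.1 ht
    have h3 : t ∈ C.erase i0 := Finset.mem_erase.2 ⟨hne, ht2⟩
    rw [← hC4] at h3
    simp only [Finset.mem_insert, Finset.mem_singleton] at h3
    simp only [Finset.mem_insert, Finset.mem_singleton]
    apply hall hp1
    rcases h3 with e | e | e
    · exact Or.inl (e ▸ ht1)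
    · exact Or.inr (Or.inl (e ▸ ht1))
    · exact Or.inr (Or.inr (e ▸ ht1))
  have hE4 : (E X C).card ≤ 4 := (Finset.card_le_card hE).trans Finset.card_le_four
  have hE2 : 2 ≤ (E X C).card := by
    have : ({x, g} : Finset P) ⊆ E X C := by
      intro p hp
      simp only [Finset.mem_insert, Finset.mem_singleton] at hp
      rcases hp with rfl | rfl
      · exact mem_E.2 ⟨hx.1, hx.2.1⟩
      · exact mem_E.2 ⟨hg.1, hg.2.1⟩
    have := Finset.card_le_card this
    rwa [Finset.card_pair hxg] at this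
  have hphi := hCl.phi
  omega

end Pool.Agent.TDL.H71
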