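import Pool.Agent.Helper33_TDL.K2s

/-!
# TDL, the case kappa = 2: the 4-cycle given by a fat player
-/

set_option autoImplicit false

namespace Pool.Agent.TDL.H71

open scoped Classical

open Pool.Agent.TDL

variable {T P : Type} {X : Pos T P} {Bad : Finset T → Prop}

lemma Nc.mem {Q C : Finset T} (h : Nc X Bad Q C) : C ∈ S X Bad Q := by
  rw [h.s]
  exact Finset.mem_singleton_self C

lemma Nc.clu {Q C : Finset T} (hK : K2N X Bad) (h : Nc X Bad Q C) : Clu X C :=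
  hK.clu C (S.bad (Nc.mem h))

lemma Nc.cl {Q C : Finset T} (h : Nc X Bad Q C) {p : P} (hp : p ∈ X.A) {d t : T}
    (h1 : d ∈ X.N p) (h2 : d ∈ C) (h3 : t ∈ X.N p) (h4 : t ∉ C) : t ∈ Q :=
  S.cl' (Nc.mem h) hp (meets_of h1 h2) h3 h4

lemma Nc.nm {Q C : Finset T} (h : Nc X Bad Q C) {t : T} (ht : t ∈ Q) : t ∉ C :=
  fun h' => S.not_mem (Nc.mem h) h' ht

/-- An attached player. -/
lemma att_split (hK : K2N X Bad) {Q C : Finset T} (hQ : Nc X Bad Q C) {x : P} (hx : Att X C x)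
    {t : T} (ht : t ∈ X.N x) (htC : t ∉ C) :
    ∃ u v, u ∈ C ∧ v ∈ C ∧ u ≠ v ∧ X.N x ∩ C = {u, v} ∧ X.N x = {u, v, t} := by
  have h2 := (Nc.clu hK hQ).two x hx.1 hx.2.1
  obtain ⟨u, v, huv, he⟩ := Finset.card_eq_two.1 h2
  have hu : u ∈ X.N x ∩ C := by rw [he]; simp
  have hv : v ∈ X.N x ∩ C := by rw [he]; simp
  rw [Finset.mem_inter] at hu hv
  have hut : u ≠ t := fun e => htC (e ▸ hu.2)
  have hvt : v ≠ t := fun e => htC (e ▸ hv.2)
  refine ⟨u, v, hu.2, hv.2, huv, he, ?_⟩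
  symm
  apply Finset.eq_of_subset_of_card_le
  · intro r hr
    simp only [Finset.mem_insert, Finset.mem_singleton] at hr
    rcases hr with rfl | rfl | rfl
    · exact hu.1
    · exact hv.1
    · exact ht
  · rw [hK.att3 Q C x hQ hx, Finset.card_eq_three.2 ⟨u, v, t, huv, hut, hvt, rfl⟩]

/-- CUT (i). -/
lemma cut_i (hK : K2N X Bad) {Q C B D : Finset T} (hQ : Nc X Bad Q C) (hB : Nc X Bad B D) {e : P}
    (he : Att X C e) {t : T} (ht : t ∈ X.N e) (htC : t ∉ C) (htD : t ∈ D) :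
    ∃ w i, X.N e = {w, i, t} ∧ w ∈ B ∧ w ∈ C ∧ w ∉ D ∧ i ∈ C ∧ i ∈ D ∧ t ∈ Q := by
  obtain ⟨u, v, hu, hv, huv, -, hN⟩ := att_split hK hQ he ht htC
  have hut : u ≠ t := fun e => htC (e ▸ hu)
  have hvt : v ≠ t := fun e => htC (e ▸ hv)
  have huN : u ∈ X.N e := by rw [hN]; simp
  have hvN : v ∈ X.N e := by rw [hN]; simp
  have htQ : t ∈ Q := Nc.cl hQ he.1 huN hu ht htC
  have h2 := (Nc.clu hK hB).two e he.1 (meets_of ht htD)
  by_cases huD : u ∈ D
  · have hvD : v ∉ D := by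
      intro hvD
      have : X.N e ∩ D = {u, v, t} := by
        rw [hN]
        apply Finset.inter_eq_left.2
        intro r hr
        simp only [Finset.mem_insert, Finset.mem_singleton] at hr
        rcases hr with rfl | rfl | rfl <;> assumption
      rw [this, Finset.card_eq_three.2 ⟨u, v, t, huv, hut, hvt, rfl⟩] at h2
      omega
    refine ⟨v, u, ?_, Nc.cl hB he.1 ht htD hvN hvD, hv, hvD, hu, huD, htQ⟩
    rw [hN]
    exact Finset.insert_comm u v {t}
  · refine ⟨u, v, hN, Nc.cl hB he.1 ht htD huN huD, hu, huD, hv, ?_, htQ⟩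
    by_contra hvD
    have : X.N e ∩ D ⊆ {t} := by
      intro r hr
      rw [Finset.mem_inter, hN] at hr
      simp only [Finset.mem_insert, Finset.mem_singleton] at hr
      rcases hr.1 with rfl | rfl | rfl
      · exact absurd hr.2 huD
      · exact absurd hr.2 hvD
      · exact Finset.mem_singleton_self _
    have h3 := Finset.card_le_card this
    rw [h2, Finset.card_singleton] at h3
    omega

/-- CUT (ii). -/
lemma cut_ii (hK : K2N X Bad) {Q C B D : Finset T} (hQ : Nc X Bad Q C) (hB : Nc X Bad B D) {r : P}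
    (hr : r ∈ X.A) {i c : T} (h1 : i ∈ X.N r) (h2 : i ∈ C) (h3 : i ∈ D) (h4 : c ∈ X.N r)
    (h5 : c ∈ C) (h6 : c ∉ D) :
    c ∈ B ∧ ∃ s ∈ X.N r, s ∈ D ∧ s ∉ C ∧ s ∈ Q ∧ Att X C r ∧ X.N r = {c, i, s} := by
  have hic : i ≠ c := fun e => h6 (e ▸ h3)
  refine ⟨Nc.cl hB hr h1 h3 h4 h6, ?_⟩
  obtain ⟨s, hs1, hs2, hs3⟩ := (Nc.clu hK hB).other hr h1 h3
  have hp := (Nc.clu hK hQ).pair hr h1 h2 h4 h5 hic
  have hsC : s ∉ C := by
    intro hsC
    have : s ∈ X.N r ∩ C := Finset.mem_inter.2 ⟨hs1, hsC⟩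
    rw [hp, Finset.mem_insert, Finset.mem_singleton] at this
    rcases this with rfl | rfl
    · exact hs3 rfl
    · exact h6 hs2
  have hatt : Att X C r := ⟨hr, meets_of h1 h2, fun hs => hsC (hs hs1)⟩
  refine ⟨s, hs1, hs2, hsC, Nc.cl hQ hr h1 h2 hs1 hsC, hatt, ?_⟩
  symm
  have hcs : c ≠ s := fun e => hsC (e ▸ h5)
  apply Finset.eq_of_subset_of_card_le
  · intro r' hr'
    simp only [Finset.mem_insert, Finset.mem_singleton] at hr'
    rcases hr' with rfl | rfl | rfl <;> assumption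
  · rw [hK.att3 Q C r hQ hatt,
      Finset.card_eq_three.2 ⟨c, i, s, hic.symm, hcs, hs3.symm, rfl⟩]

/-- No triangles. -/
lemma no_tri {C : Finset T} (hC : Clu X C) {u v w : T} (huv : u ≠ v) (huw : u ≠ w) (hvw : v ≠ w)
    {p q r : P} (hp : p ∈ X.A) (hq : q ∈ X.A) (hr : r ∈ X.A) (h1 : X.N p ∩ C = {u, v})
    (h2 : X.N q ∩ C = {u, w}) (h3 : X.N r ∩ C = {v, w}) : False := by
  have huC : u ∈ C := by
    have : u ∈ X.N p ∩ C := by rw [h1]; simp
    exact (Finset.mem_inter.1 this).2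
  have hvC : v ∈ C := by
    have : v ∈ X.N p ∩ C := by rw [h1]; simp
    exact (Finset.mem_inter.1 this).2
  have hwC : w ∈ C := by
    have : w ∈ X.N q ∩ C := by rw [h2]; simp
    exact (Finset.mem_inter.1 this).2
  have hsub : ({u, v, w} : Finset T) ⊆ C := by
    intro t ht
    simp only [Finset.mem_insert, Finset.mem_singleton] at ht
    rcases ht with rfl | rfl | rfl <;> assumption
  have hc3 : ({u, v, w} : Finset T).card = 3 :=
    Finset.card_eq_three.2 ⟨u, v, w, huv, huw, hvw, rfl⟩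
  have hs := hC.sp3 {u, v, w} hsub hc3.ge
  have hpq : p ≠ q := by
    rintro rfl
    rw [h1] at h2
    have : v ∈ ({u, w} : Finset T) := by rw [← h2]; simp
    simp only [Finset.mem_insert, Finset.mem_singleton] at this
    rcases this with e | e
    · exact huv e.symm
    · exact hvw e
  have hpr : p ≠ r := by
    rintro rfl
    rw [h1] at h3
    have : u ∈ ({v, w} : Finset T) := by rw [← h3]; simp
    simp only [Finset.mem_insert, Finset.mem_singleton] at this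
    rcases this with e | e
    · exact huv e
    · exact huw e
  have hqr : q ≠ r := by
    rintro rfl
    rw [h2] at h3
    have : u ∈ ({v, w} : Finset T) := by rw [← h3]; simp
    simp only [Finset.mem_insert, Finset.mem_singleton] at this
    rcases this with e | e
    · exact huv e
    · exact huw e
  have hm : ∀ p : P, ∀ a b : T, X.N p ∩ C = {a, b} → Meets X p C := by
    intro p a b h
    have : a ∈ X.N p ∩ C := by rw [h]; simp
    exact meets_of (Finset.mem_inter.1 this).1 (Finset.mem_inter.1 this).2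
  have hE : ({p, q, r} : Finset P) ⊆ Ei X C {u, v, w} := by
    intro t ht
    simp only [Finset.mem_insert, Finset.mem_singleton] at ht
    rcases ht with rfl | rfl | rfl
    · refine mem_Ei.2 ⟨hp, hm _ _ _ h1, ?_⟩
      rw [h1]
      intro a ha
      simp only [Finset.mem_insert, Finset.mem_singleton] at ha ⊢
      tauto
    · refine mem_Ei.2 ⟨hq, hm _ _ _ h2, ?_⟩
      rw [h2]
      intro a ha
      simp only [Finset.mem_insert, Finset.mem_singleton] at ha ⊢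
      tauto
    · refine mem_Ei.2 ⟨hr, hm _ _ _ h3, ?_⟩
      rw [h3]
      intro a ha
      simp only [Finset.mem_insert, Finset.mem_singleton] at ha ⊢
      tauto
  have h4 := Finset.card_le_card hE
  rw [Finset.card_eq_three.2 ⟨p, q, r, hpq, hpr, hqr, rfl⟩] at h4
  omega

lemma inter3 {C : Finset T} {p : P} {a b t : T} (h : X.N p = {a, b, t}) (ha : a ∈ C) (hb : b ∈ C)
    (ht : t ∉ C) : X.N p ∩ C = {a, b} := by
  rw [h]
  ext r
  simp only [Finset.mem_inter, Finset.mem_insert, Finset.mem_singleton]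
  constructor
  · rintro ⟨rfl | rfl | rfl, hr⟩
    · exact Or.inl rfl
    · exact Or.inr rfl
    · exact absurd hr ht
  · rintro (rfl | rfl)
    · exact ⟨Or.inl rfl, ha⟩
    · exact ⟨Or.inr (Or.inl rfl), hb⟩

/-- The base of `g`. -/
lemma half (hK : K2N X Bad) {Q C : Finset T} {y1 y2 : P} {a b : T}
    (hb : Base X Bad Q C y1 y2 a b) {x g h : P} {u v i0 i1 c tg th : T} {D : Finset T}
    (hx : Att X C x) (hg : Att X C g) (hh : Att X C h)
    (huv : u ≠ v) (hii : i0 ≠ i1) (hu : u ∈ C) (hv : v ∈ C) (hi0 : i0 ∈ C) (hi1 : i1 ∈ C)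
    (hi1D : i1 ∈ D) (huD : u ∉ D) (hvD : v ∉ D)
    (hNx : X.N x = {u, v, c}) (hNg : X.N g = {u, i0, tg}) (hNh : X.N h = {v, i1, th})
    (hc : c ∉ C) (htg : tg ∉ C) (hth : th ∉ C) (hk1 : kk a b c ≠ kk a b tg)
    (hk2 : kk a b th ≠ kk a b tg) :
    ∀ B' D' y' c' s', Base X Bad B' D' g y' c' s' → c' = i0 ∧ s' = i1 := by
  intro B' D' y' c' s' hB
  have hgB : X.N g ⊆ B' := by
    rw [hB.eq]
    exact Finset.subset_insert _ _
  have hgN : tg ∈ X.N g := by rw [hNg]; simp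
  have hcN : c ∈ X.N x := by rw [hNx]; simp
  have hthN : th ∈ X.N h := by rw [hNh]; simp
  have huN : u ∈ X.N g := by rw [hNg]; simp
  have hcQ : c ∈ Q := Nc.cl hb.nc hx.1 (by rw [hNx]; simp : u ∈ X.N x) hu hcN hc
  have hthQ : th ∈ Q := Nc.cl hb.nc hh.1 (by rw [hNh]; simp : v ∈ X.N h) hv hthN hth
  have hcD : c ∈ D' := (hb.tok g B' D' hg hB.nc hgB tg hgN htg c hcQ).2 hk1
  have hthD : th ∈ D' := (hb.tok g B' D' hg hB.nc hgB tg hgN htg th hthQ).2 hk2
  have huD' : u ∉ D' := Nc.nm hB.nc (hgB huN)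
  have hvD' : v ∈ D' := by
    obtain ⟨t, ht1, ht2, ht3⟩ := (Nc.clu hK hB.nc).other hx.1 hcN hcD
    rw [hNx] at ht1
    simp only [Finset.mem_insert, Finset.mem_singleton] at ht1
    rcases ht1 with rfl | rfl | rfl
    · exact absurd ht2 huD'
    · exact ht2
    · exact absurd rfl ht3
  have hi1th : i1 ≠ th := fun e => hth (e ▸ hi1)
  have hvi1 : v ≠ i1 := fun e => hvD (e ▸ hi1D)
  have hvth : v ≠ th := fun e => hth (e ▸ hv)
  have hi1D' : i1 ∉ D' := by
    intro hi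
    have h2 := (Nc.clu hK hB.nc).two h hh.1 (meets_of hthN hthD)
    have : X.N h ∩ D' = {v, i1, th} := by
      rw [hNh]
      apply Finset.inter_eq_left.2
      intro r hr
      simp only [Finset.mem_insert, Finset.mem_singleton] at hr
      rcases hr with rfl | rfl | rfl <;> assumption
    rw [this, Finset.card_eq_three.2 ⟨v, i1, th, hvi1, hvth, hi1th, rfl⟩] at h2
    omega
  have hi1B : i1 ∈ B' := Nc.cl hB.nc hh.1 hthN hthD (by rw [hNh]; simp) hi1D'
  have hui1 : u ≠ i1 := fun e => huD (e ▸ hi1D)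
  have hs' : i1 = s' := by
    rw [hB.eq, hNg] at hi1B
    simp only [Finset.mem_insert, Finset.mem_singleton] at hi1B
    rcases hi1B with e | e | e | e
    · exact e
    · exact absurd e.symm hui1
    · exact absurd e.symm hii
    · exact absurd (e ▸ hi1) htg
  subst hs'
  refine ⟨?_, rfl⟩
  have hyA := hB.A2
  have hyN := hB.n2
  have hcc : c' ∈ C := by
    have h1 : i1 ∈ X.N y' := by rw [hyN]; simp
    obtain ⟨t, ht1, ht2, ht3⟩ := (Nc.clu hK hb.nc).other hyA h1 hi1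
    rw [hyN] at ht1
    simp only [Finset.mem_insert, Finset.mem_singleton] at ht1
    rcases ht1 with rfl | rfl
    · exact ht2
    · exact absurd rfl ht3
  have hcg := hB.ha
  rw [hNg] at hcg
  simp only [Finset.mem_insert, Finset.mem_singleton] at hcg
  rcases hcg with rfl | rfl | rfl
  · exfalso
    refine no_tri (Nc.clu hK hb.nc) huv hui1 hvi1 hx.1 hyA hh.1 (inter3 hNx hu hv hc) ?_
      (inter3 hNh hv hi1 hth)
    rw [hyN]
    apply Finset.inter_eq_left.2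
    intro r hr
    simp only [Finset.mem_insert, Finset.mem_singleton] at hr
    rcases hr with rfl | rfl <;> assumption
  · rfl
  · exact absurd hcc htg

/-- `kk` takes values in `N y1`. -/
lemma kk_mem {Q C : Finset T} {y1 y2 : P} {a b t : T} (hb : Base X Bad Q C y1 y2 a b)
    (ht : t ∈ Q) : kk a b t ∈ X.N y1 := by
  unfold kk
  split_ifs with h
  · exact hb.ha
  · rw [hb.eq, Finset.mem_insert] at ht
    rcases ht with h' | h'
    · exact absurd h' h
    · exact h'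

/-- A set with three elements. -/
lemma three {s : Finset T} (hs : s.card = 3) {p q r t : T} (hp : p ∈ s) (hq : q ∈ s) (hr : r ∈ s)
    (ht : t ∈ s) (hpq : p ≠ q) (hpr : p ≠ r) (hqr : q ≠ r) (htp : t ≠ p) : t = q ∨ t = r := by
  have h1 : ({p, q, r} : Finset T) = s := by
    apply Finset.eq_of_subset_of_card_le
    · intro x hx
      simp only [Finset.mem_insert, Finset.mem_singleton] at hx
      rcases hx with rfl | rfl | rfl <;> assumption
    · rw [hs, Finset.card_eq_three.2 ⟨p, q, r, hpq, hpr, hqr, rfl⟩]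
  rw [← h1] at ht
  simp only [Finset.mem_insert, Finset.mem_singleton] at ht
  rcases ht with e | e | e
  · exact absurd e htp
  · exact Or.inl e
  · exact Or.inr e

/-- The main construction: `g` and `h` at different ends of `x`. -/
lemma ends (hK : K2N X Bad) {Q C B D : Finset T} {y1 y2 y x : P} {a b c s : T}
    (hb : Base X Bad Q C y1 y2 a b) (hx : Att X C x) (hB : Base X Bad B D x y c s) (hc : c ∉ C)
    {r2 r3 : T} (hr2 : r2 ∈ X.N y1) (hr3 : r3 ∈ X.N y1) (hr : r2 ≠ r3) (hk2 : r2 ≠ kk a b c)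
    (hk3 : r3 ≠ kk a b c) :
    ∃ g h u v i0 i1 tg th, Att X C g ∧ Att X C h ∧ u ≠ v ∧ u ∈ C ∧ v ∈ C ∧ i0 ∈ C ∧ i1 ∈ C ∧
      i0 ∈ D ∧ i1 ∈ D ∧ u ∉ D ∧ v ∉ D ∧ X.N x = {u, v, c} ∧ X.N g = {u, i0, tg} ∧
      X.N h = {v, i1, th} ∧ tg ∉ C ∧ th ∉ C ∧ kk a b tg = r2 ∧ kk a b th = r3 := by
  have hcN : c ∈ X.N x := hB.ha
  obtain ⟨u, v, hu, hv, huv, -, hNx⟩ := att_split hK hb.nc hx hcN hc
  have hxB : X.N x ⊆ B := by
    rw [hB.eq]
    exact Finset.subset_insert _ _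
  have huN : u ∈ X.N x := by rw [hNx]; simp
  have hvN : v ∈ X.N x := by rw [hNx]; simp
  have huD : u ∉ D := Nc.nm hB.nc (hxB huN)
  have hvD : v ∉ D := Nc.nm hB.nc (hxB hvN)
  have hcQ : c ∈ Q := Nc.cl hb.nc hx.1 huN hu hcN hc
  have htok : ∀ t ∈ Q, (t ∈ D ↔ kk a b t ≠ kk a b c) :=
    hb.tok x B D hx hB.nc hxB c hcN hc
  have hsC : s ∉ C := by
    intro hsC
    have hsN : s ∈ X.N y := by rw [hB.n2]; simp
    obtain ⟨t, ht1, ht2, ht3⟩ := (Nc.clu hK hb.nc).other hB.A2 hsN hsC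
    rw [hB.n2] at ht1
    simp only [Finset.mem_insert, Finset.mem_singleton] at ht1
    rcases ht1 with rfl | rfl
    · exact hc ht2
    · exact ht3 rfl
  have hBC : ∀ t ∈ B, t ∈ C → t = u ∨ t = v := by
    intro t ht htC
    rw [hB.eq, hNx] at ht
    simp only [Finset.mem_insert, Finset.mem_singleton] at ht
    rcases ht with rfl | rfl | rfl | rfl
    · exact absurd htC hsC
    · exact Or.inl rfl
    · exact Or.inr rfl
    · exact absurd htC hc
  -- attached players of another class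
  have key : ∀ e, Att X C e → ∀ t ∈ X.N e, t ∉ C → kk a b t ≠ kk a b c →
      ∃ w i, X.N e = {w, i, t} ∧ (w = u ∨ w = v) ∧ i ∈ C ∧ i ∈ D := by
    intro e he t ht htC hkt
    have htQ : t ∈ Q := by
      obtain ⟨u', v', hu', -, -, -, hN'⟩ := att_split hK hb.nc he ht htC
      exact Nc.cl hb.nc he.1 (by rw [hN']; simp : u' ∈ X.N e) hu' ht htC
    obtain ⟨w, i, h1, h2, h3, h4, h5, h6, -⟩ := cut_i hK hb.nc hB.nc he ht htC
      ((htok t htQ).2 hkt)
    exact ⟨w, i, h1, hBC w h2 h3, h5, h6⟩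
  obtain ⟨g0, hg0, t0, ht0, ht0C, hkt0⟩ := hb.cls r2 hr2
  obtain ⟨w0, j0, hN0, hw0, hj0C, hj0D⟩ := key g0 hg0 t0 ht0 ht0C (hkt0 ▸ hk2)
  obtain ⟨h0, hh0, t1, ht1, ht1C, hkt1⟩ := hb.cls r3 hr3
  obtain ⟨w1, j1, hN1, hw1, hj1C, hj1D⟩ := key h0 hh0 t1 ht1 ht1C (hkt1 ▸ hk3)
  -- both ends have players of other classes
  have both : ∀ w w' : T, w ∈ C → w ∉ D → w' ∉ D → w ≠ w' → (∀ t, t = u ∨ t = v → t = w ∨ t = w') →
      ∃ p i t, Att X C p ∧ X.N p = {w, i, t} ∧ i ∈ C ∧ i ∈ D ∧ t ∉ C ∧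
        (kk a b t = r2 ∨ kk a b t = r3) := by
    intro w w' hwC hwD hw'D hww hall
    obtain ⟨p, hp, hp1, hp2⟩ := (Nc.clu hK hb.nc).conn w' (C ∩ D)
      (by
        intro t ht
        obtain ⟨ht1, ht2⟩ := Finset.mem_inter.1 ht
        exact Finset.mem_erase.2 ⟨fun e => hw'D (e ▸ ht2), ht1⟩)
      ⟨j0, Finset.mem_inter.2 ⟨hj0C, hj0D⟩⟩
      (by
        intro e
        have : w ∈ C ∩ D := by
          rw [e]
          exact Finset.mem_erase.2 ⟨hww, hwC⟩
        exact hwD (Finset.mem_inter.1 this).2)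
    obtain ⟨i, hi1, hi2⟩ := (meets_iff _ _).1 hp1
    obtain ⟨hi3, hi4⟩ := Finset.mem_inter.1 hi2
    obtain ⟨d, hd1, hd2⟩ := (meets_iff _ _).1 hp2
    obtain ⟨hd3, hd4⟩ := Finset.mem_sdiff.1 hd2
    obtain ⟨hd5, hd6⟩ := Finset.mem_erase.1 hd3
    have hdD : d ∉ D := fun h' => hd4 (Finset.mem_inter.2 ⟨hd6, h'⟩)
    obtain ⟨hdB, t, ht1, ht2, ht3, ht4, hat, hN⟩ :=
      cut_ii hK hb.nc hB.nc hp hi1 hi3 hi4 hd1 hd6 hdD
    have hdw : d = w := by
      rcases hall d (hBC d hdB hd6) with e | e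
      · exact e
      · exact absurd e hd5
    subst hdw
    refine ⟨p, i, t, hat, hN, hi3, hi4, ht3, ?_⟩
    have hkt : kk a b t ≠ kk a b c := (htok t ht4).1 ht2
    exact three hb.c3 (kk_mem hb hcQ) hr2 hr3 (kk_mem hb ht4) hk2.symm hk3.symm hr hkt
  -- a chosen order of the ends
  have fin : ∀ w w' : T, w ∈ C → w ∉ D → w' ∈ C → w' ∉ D → w ≠ w' → X.N x = {w, w', c} →
      (∀ t, t = u ∨ t = v → t = w ∨ t = w') → w0 = w →
      ∃ g h u v i0 i1 tg th, Att X C g ∧ Att X C h ∧ u ≠ v ∧ u ∈ C ∧ v ∈ C ∧ i0 ∈ C ∧ i1 ∈ C ∧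
        i0 ∈ D ∧ i1 ∈ D ∧ u ∉ D ∧ v ∉ D ∧ X.N x = {u, v, c} ∧ X.N g = {u, i0, tg} ∧
        X.N h = {v, i1, th} ∧ tg ∉ C ∧ th ∉ C ∧ kk a b tg = r2 ∧ kk a b th = r3 := by
    intro w w' hw hwD hw' hwD' hww hNx' hall hw0w
    subst hw0w
    obtain ⟨p, i, t, hp, hpN, hiC, hiD, htC, hk⟩ := both w' w0 hw' hwD' hwD hww.symm
      (fun t ht => (hall t ht).symm)
    rcases hk with hk | hk
    · -- `p` has class r2
      rcases hall w1 hw1 with e | e
      · subst e
        refine ⟨p, h0, w', w1, i, j1, t, t1, hp, hh0, hww.symm, hw', hw, hiC, hj1C, hiD, hj1D,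
          hwD', hwD, ?_, hpN, hN1, htC, ht1C, hk, hkt1⟩
        rw [hNx', Finset.insert_comm]
      · subst e
        exact ⟨g0, h0, w0, w1, j0, j1, t0, t1, hg0, hh0, hww, hw, hw', hj0C, hj1C, hj0D, hj1D,
          hwD, hwD', hNx', hN0, hN1, ht0C, ht1C, hkt0, hkt1⟩
    · exact ⟨g0, p, w0, w', j0, i, t0, t, hg0, hp, hww, hw, hw', hj0C, hiC, hj0D, hiD,
        hwD, hwD', hNx', hN0, hpN, ht0C, htC, hkt0, hk⟩
  rcases hw0 with e | e
  · exact fin u v hu huD hv hvD huv hNx (fun t ht => ht) e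
  · refine fin v u hv hvD hu huD huv.symm ?_ (fun t ht => ht.symm) e
    rw [hNx, Finset.insert_comm]

theorem six : SixStmt := by
  intro T P X Bad hK Q C y1 y2 a b hb x B D y c s hx hB hc r2 hr2 r3 hr3 hr hk2 hk3
  have hN : K2N X Bad := hK.toK2N
  obtain ⟨g, h, u, v, i0, i1, tg, th, hg, hh, huv, hu, hv, hi0, hi1, hi0D, hi1D, huD, hvD, hNx,
    hNg, hNh, htg, hth, hkg, hkh⟩ := ends hN hb hx hB hc hr2 hr3 hr hk2 hk3
  have hCl := Nc.clu hN hb.nc
  have hii : i0 ≠ i1 := by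
    rintro rfl
    exact no_tri hCl huv (fun e => huD (e ▸ hi0D)) (fun e => hvD (e ▸ hi0D)) hx.1 hg.1 hh.1
      (inter3 hNx hu hv hc) (inter3 hNg hu hi0 htg) (inter3 hNh hv hi0 hth)
  have h1 := half hN hb (D := D) hx hg hh huv hii hu hv hi0 hi1 hi1D huD hvD hNx hNg hNh hc htg hth
    (by rw [hkg]; exact hk2.symm) (by rw [hkg, hkh]; exact hr.symm)
  have h2 := half hN hb (D := D) (x := x) (c := c) hx hh hg huv.symm hii.symm hv hu hi1 hi0 hi0D hvD
    huD (by rw [hNx, Finset.insert_comm]) hNh hNg hc hth htg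
    (by rw [hkh]; exact hk3.symm) (by rw [hkg, hkh]; exact hr)
  obtain ⟨B', D', hB', hgB'⟩ := hN.wit1 Q C g hb.nc hg
  obtain ⟨m, c', s', hbase⟩ := hK.base B' D' g hB' (mem_J.2 ⟨hg.1, hgB'⟩)
    (hN.att3 Q C g hb.nc hg)
  obtain ⟨rfl, rfl⟩ := h1 _ _ _ _ _ hbase
  exact ⟨g, h, m, u, v, c', s', tg, th,
    { ag := hg
      ah := hh
      am := hbase.A2
      uv := huv
      ii := hii
      uC := hu
      vC := hv
      i0C := hi0
      i1C := hi1
      i0D := hi0D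
      i1D := hi1D
      uD := huD
      vD := hvD
      nx := inter3 hNx hu hv hc
      ng := hNg
      nh := hNh
      nm := hbase.n2
      tgC := htg
      thC := hth
      kg := hkg
      kh := hkh
      bg := h1
      bh := h2 }⟩

end Pool.Agent.TDL.H71
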